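import Mathlib

set_option autoImplicit false

namespace Pool.Agent.Y285.WG

open Finset

/-- A finite downward closed set of naturals is an initial segment. -/
lemma mem_iff_lt_card (S : Finset ℕ) (h : ∀ k ∈ S, ∀ l, l < k → l ∈ S) (k : ℕ) :
    k ∈ S ↔ k < S.card := by
  have h1 : ∀ k ∈ S, k < S.card := by
    intro k hk
    have h2 : range (k + 1) ⊆ S := by
      intro l hl
      rcases Nat.lt_succ_iff_lt_or_eq.mp (mem_range.mp hl) with h3 | h3
      · exact h k hk l h3
      · rw [h3]; exact hk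
    have h3 := card_le_card h2
    rw [card_range] at h3
    omega
  have h4 : S = range S.card := by
    apply eq_of_subset_of_card_le
    · intro k hk; exact mem_range.mpr (h1 k hk)
    · rw [card_range]
  constructor
  · exact h1 k
  · intro hk
    rw [h4]; exact mem_range.mpr hk

/-- `∑_{k < n} w_k / √W_{k+1} ≤ 2 √W_n`. -/
lemma sum_sqrt (w : ℕ → ℝ) (n : ℕ) (hw : ∀ k, k < n → 0 < w k) :
    ∑ k ∈ range n, w k * (∑ l ∈ range (k + 1), w l) ^ (-(1 / 2) : ℝ) ≤
      2 * (∑ l ∈ range n, w l) ^ ((1 / 2) : ℝ) := by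
  induction n with
  | zero => simp
  | succ n ih =>
    have ih' := ih (fun k hk => hw k (by omega))
    have hn := hw n (by omega)
    rw [sum_range_succ]
    set W : ℝ := ∑ l ∈ range (n + 1), w l with hW
    set W' : ℝ := ∑ l ∈ range n, w l with hW'
    have e : W = W' + w n := by rw [hW, sum_range_succ]
    have hW'0 : 0 ≤ W' := sum_nonneg (fun l hl => (hw l (by have := mem_range.mp hl; omega)).le)
    have hWpos : 0 < W := by linarith
    rw [Real.rpow_neg hWpos.le, ← Real.sqrt_eq_rpow]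
    rw [← Real.sqrt_eq_rpow] at ih'
    have h1 : 0 < √W := Real.sqrt_pos.mpr hWpos
    have h2 : √W' ≤ √W := Real.sqrt_le_sqrt (by linarith)
    have h3 : √W * √W = W := Real.mul_self_sqrt hWpos.le
    have h4 : √W' * √W' = W' := Real.mul_self_sqrt hW'0
    have h5 : w n * (√W)⁻¹ ≤ 2 * √W - 2 * √W' := by
      rw [← div_eq_mul_inv, div_le_iff₀ h1]
      nlinarith [sq_nonneg (√W - √W'), Real.sqrt_nonneg W']
    linarith

/-- The summation lemma behind the removal of the logarithm, general exponents. -/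
lemma sum_bound {ι : Type*} [DecidableEq ι] (Λ : Finset ι) (a : ι → ℝ) (ha : ∀ i, 0 ≤ a i)
    (Γ : ℕ → Finset ι) (hΓ : ∀ k, Γ k ⊆ Λ) (hanti : ∀ k, Γ (k + 1) ⊆ Γ k)
    (N : ℕ) (w : ℕ → ℝ) (hw : ∀ k, k < N → 0 < w k) (hne : ∀ k, k < N → (Γ k).Nonempty)
    (E s Q : ℝ) (hE : 0 < E) (hs : 1 < s) (hQ : 0 < Q) (hθ : 1 ≤ Q * (1 - 1 / s))
    (h : ∀ k, k < N → (∑ l ∈ range (k + 1), w l) * (∑ i ∈ Γ k, a i ^ s) ^ (Q / s) ≤ E) :
    ∑ k ∈ range N, w k * (∑ i ∈ Γ k, a i) ^ Q ≤
      2 ^ (1 + Q / s) * E * (Λ.card : ℝ) ^ (Q * (1 - 1 / s)) := by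
  classical
  have hs0 : 0 < s := by linarith
  set θ : ℝ := Q * (1 - 1 / s) with hθdef
  set β : ℝ := s / (2 * Q) with hβ
  have hβ0 : 0 < β := by positivity
  have hmono : ∀ k l, k ≤ l → Γ l ⊆ Γ k := by
    intro k l hkl
    induction l, hkl using Nat.le_induction with
    | base => exact Subset.rfl
    | succ n _ ih => exact (hanti n).trans ih
  set W : ℕ → ℝ := fun n => ∑ l ∈ range n, w l with hW
  have hWmono : ∀ k l, k ≤ l → l ≤ N → W k ≤ W l := by
    intro k l hkl hl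
    apply sum_le_sum_of_subset_of_nonneg (range_subset_range.mpr hkl)
    intro i hi _
    exact (hw i (by have := mem_range.mp hi; omega)).le
  have hWpos : ∀ n, 0 < n → n ≤ N → 0 < W n := by
    intro n hn hnN
    apply Finset.sum_pos
    · intro i hi
      exact hw i (lt_of_lt_of_le (mem_range.mp hi) hnN)
    · exact ⟨0, mem_range.mpr hn⟩
  set T : ι → ℕ := fun j => ((range N).filter (fun k => j ∈ Γ k)).card with hT
  have hTiff : ∀ j k, k < N → (j ∈ Γ k ↔ k < T j) := by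
    intro j k hk
    rw [← mem_iff_lt_card ((range N).filter (fun k => j ∈ Γ k))]
    · simp [hk]
    · intro k hk l hl
      rw [mem_filter, mem_range] at hk ⊢
      exact ⟨by omega, hmono l k hl.le hk.2⟩
  have hTN : ∀ j, T j ≤ N := by
    intro j
    have := card_filter_le (range N) (fun k => j ∈ Γ k)
    rw [card_range] at this
    exact this
  set b : ℕ → ℝ := fun k => ∑ i ∈ Γ k, a i ^ s with hb
  have hb0 : ∀ k, 0 ≤ b k := fun k => sum_nonneg (fun i _ => Real.rpow_nonneg (ha i) s)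
  set E' : ℝ := E ^ (s / Q) with hE'
  have hE'0 : 0 < E' := by positivity
  have hbE : ∀ k, k < N → b k ≤ E' * (W (k + 1)) ^ (-(2 * β)) := by
    intro k hk
    have h1 := h k hk
    have h2 : 0 < W (k + 1) := hWpos (k + 1) (by omega) (by omega)
    have h3 : b k ^ (Q / s) ≤ E / W (k + 1) := by
      rw [le_div_iff₀ h2, mul_comm]; exact h1
    have h4 : (b k ^ (Q / s)) ^ (s / Q) ≤ (E / W (k + 1)) ^ (s / Q) :=
      Real.rpow_le_rpow (Real.rpow_nonneg (hb0 k) _) h3 (by positivity)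
    rw [← Real.rpow_mul (hb0 k), show Q / s * (s / Q) = 1 by field_simp, Real.rpow_one,
      Real.div_rpow hE.le h2.le] at h4
    rw [Real.rpow_neg h2.le, show 2 * β = s / Q by rw [hβ]; field_simp, ← div_eq_mul_inv]
    exact h4
  -- weighted sums
  have hF2 : ∀ d k, k + 1 + d = N → ∑ j ∈ Γ k, a j ^ s * (W (T j)) ^ β ≤
      (W (k + 1)) ^ β * b k + E' * (W (k + 1)) ^ (-β) := by
    intro d
    induction d with
    | zero =>
      intro k hk
      have h2 : 0 < W (k + 1) := hWpos (k + 1) (by omega) (by omega)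
      have h1 : ∀ j ∈ Γ k, a j ^ s * (W (T j)) ^ β = (W (k + 1)) ^ β * a j ^ s := by
        intro j hj
        have h3 : T j = k + 1 := by
          have := (hTiff j k (by omega)).mp hj
          have := hTN j
          omega
        rw [h3, mul_comm]
      rw [sum_congr rfl h1, ← mul_sum]
      have : 0 ≤ E' * (W (k + 1)) ^ (-β) := by positivity
      linarith
    | succ d ih =>
      intro k hk
      have ih' := ih (k + 1) (by omega)
      have h1 : 0 < W (k + 1) := hWpos (k + 1) (by omega) (by omega)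
      have h2 : 0 < W (k + 1 + 1) := hWpos (k + 1 + 1) (by omega) (by omega)
      have h3 : W (k + 1) ≤ W (k + 1 + 1) := hWmono _ _ (by omega) (by omega)
      rw [← sum_sdiff (hanti k)]
      have h4 : ∑ j ∈ Γ k \ Γ (k + 1), a j ^ s * (W (T j)) ^ β =
          (W (k + 1)) ^ β * (b k - b (k + 1)) := by
        have h5 : b k - b (k + 1) = ∑ j ∈ Γ k \ Γ (k + 1), a j ^ s := by
          simp only [hb]
          rw [← sum_sdiff (hanti k)]; ring
        rw [h5, mul_sum]
        apply sum_congr rfl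
        intro j hj
        rw [mem_sdiff] at hj
        have h6 := (hTiff j k (by omega)).mp hj.1
        have h7 : ¬ (k + 1 < T j) := fun h8 => hj.2 ((hTiff j (k + 1) (by omega)).mpr h8)
        rw [show T j = k + 1 by omega, mul_comm]
      rw [h4]
      have h5 := hbE (k + 1) (by omega)
      set X : ℝ := (W (k + 1 + 1)) ^ β with hX
      set Y : ℝ := (W (k + 1)) ^ β with hY
      have hXp : 0 < X := by positivity
      have hYp : 0 < Y := by positivity
      have hYX : Y ≤ X := Real.rpow_le_rpow h1.le h3 hβ0.le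
      have e1 : (W (k + 1 + 1)) ^ (-(2 * β)) = (X ^ 2)⁻¹ := by
        rw [Real.rpow_neg h2.le, mul_comm, Real.rpow_mul h2.le, Real.rpow_two]
      have e2 : (W (k + 1 + 1)) ^ (-β) = X⁻¹ := Real.rpow_neg h2.le β
      have e3 : (W (k + 1)) ^ (-β) = Y⁻¹ := Real.rpow_neg h1.le β
      rw [e1] at h5
      rw [e2] at ih'
      rw [e3]
      have h6 : (X - Y) * b (k + 1) ≤ (X - Y) * (E' * (X ^ 2)⁻¹) :=
        mul_le_mul_of_nonneg_left h5 (by linarith)
      have h7 : (X - Y) * (E' * (X ^ 2)⁻¹) + E' * X⁻¹ ≤ E' * Y⁻¹ := by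
        have h8 : (X - Y) * (X ^ 2)⁻¹ + X⁻¹ ≤ Y⁻¹ := by
          rw [← sub_nonneg]
          have : Y⁻¹ - ((X - Y) * (X ^ 2)⁻¹ + X⁻¹) = (X - Y) ^ 2 / (X ^ 2 * Y) := by
            field_simp; ring
          rw [this]; positivity
        nlinarith
      nlinarith
  have hF2' : ∀ k, k < N → ∑ j ∈ Γ k, a j ^ s * (W (T j)) ^ β ≤ 2 * E' * (W (k + 1)) ^ (-β) := by
    intro k hk
    have h1 := hF2 (N - (k + 1)) k (by omega)
    have h2 : 0 < W (k + 1) := hWpos (k + 1) (by omega) (by omega)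
    have h3 := mul_le_mul_of_nonneg_left (hbE k hk) (Real.rpow_nonneg h2.le β)
    have h4 : W (k + 1) ^ β * (E' * W (k + 1) ^ (-(2 * β))) = E' * (W (k + 1)) ^ (-β) := by
      rw [mul_left_comm, ← Real.rpow_add h2]; congr 2; ring
    rw [h4] at h3
    linarith
  -- Hölder
  have hs' : s.HolderConjugate (Real.conjExponent s) := Real.HolderConjugate.conjExponent hs
  set s' : ℝ := Real.conjExponent s with hs'def
  have hs'0 : 0 < s' := hs'.symm.pos
  have hinv : 1 / s' = 1 - 1 / s := by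
    have := hs'.inv_add_inv_eq_one
    rw [one_div, one_div]; linarith
  have hθs : θ = Q / s' := by rw [hθdef, ← hinv]; ring
  have hθ0 : 0 < θ := by linarith
  have hA : ∀ k, k < N → (∑ i ∈ Γ k, a i) ^ Q ≤
      2 ^ (Q / s) * E * (Λ.card : ℝ) ^ (θ - 1) * ((W (k + 1)) ^ (-(1 / 2) : ℝ) *
        ∑ j ∈ Γ k, (W (T j)) ^ (-(1 / 2) : ℝ)) := by
    intro k hk
    have hWk : 0 < W (k + 1) := hWpos (k + 1) (by omega) (by omega)
    have hWj : ∀ j ∈ Γ k, 0 < W (T j) := by
      intro j hj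
      have := (hTiff j k hk).mp hj
      exact hWpos _ (by omega) (hTN j)
    have h1 : ∑ i ∈ Γ k, a i = ∑ i ∈ Γ k, (a i * (W (T i)) ^ (β / s)) * ((W (T i)) ^ (-(β / s))) := by
      apply sum_congr rfl
      intro i hi
      rw [mul_assoc, ← Real.rpow_add (hWj i hi), add_neg_cancel, Real.rpow_zero, mul_one]
    have h2 := Real.inner_le_Lp_mul_Lq (Γ k) (fun i => a i * (W (T i)) ^ (β / s))
      (fun i => (W (T i)) ^ (-(β / s))) hs'
    rw [← h1] at h2
    have h3 : ∑ i ∈ Γ k, |a i * (W (T i)) ^ (β / s)| ^ s = ∑ i ∈ Γ k, a i ^ s * (W (T i)) ^ β := by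
      apply sum_congr rfl
      intro i hi
      have := hWj i hi
      rw [abs_of_nonneg (mul_nonneg (ha i) (by positivity)), Real.mul_rpow (ha i) (by positivity),
        ← Real.rpow_mul this.le, div_mul_cancel₀ _ hs0.ne']
    have h4 : ∑ i ∈ Γ k, |(W (T i)) ^ (-(β / s))| ^ s' =
        ∑ i ∈ Γ k, |(W (T i)) ^ (-(1 / (2 * θ)))| := by
      apply sum_congr rfl
      intro i hi
      have := hWj i hi
      rw [abs_of_nonneg (by positivity), abs_of_nonneg (by positivity), ← Real.rpow_mul this.le]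
      congr 1
      rw [hβ, hθs]; field_simp
    rw [h3, h4] at h2
    have hsum0 : 0 ≤ ∑ i ∈ Γ k, a i := sum_nonneg (fun i _ => ha i)
    have h5 := Real.rpow_le_rpow hsum0 h2 hQ.le
    set P1 : ℝ := ∑ i ∈ Γ k, a i ^ s * (W (T i)) ^ β with hP1
    set P2 : ℝ := ∑ i ∈ Γ k, |(W (T i)) ^ (-(1 / (2 * θ)))| with hP2
    have hP10 : 0 ≤ P1 := sum_nonneg (fun i hi => by
      have := hWj i hi
      have := ha i
      positivity)
    have hP20 : 0 ≤ P2 := sum_nonneg (fun i hi => abs_nonneg _)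
    rw [Real.mul_rpow (by positivity) (by positivity), ← Real.rpow_mul hP10,
      ← Real.rpow_mul hP20, show 1 / s * Q = Q / s by ring, show 1 / s' * Q = θ by rw [hθs]; ring] at h5
    have h6 : P1 ^ (Q / s) ≤ 2 ^ (Q / s) * E * (W (k + 1)) ^ (-(1 / 2) : ℝ) := by
      have h7 := Real.rpow_le_rpow hP10 (hF2' k hk) (by positivity : 0 ≤ Q / s)
      rw [Real.mul_rpow (by positivity) (by positivity), Real.mul_rpow (by norm_num) hE'0.le,
        hE', ← Real.rpow_mul hE.le, show s / Q * (Q / s) = 1 by field_simp, Real.rpow_one,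
        ← Real.rpow_mul hWk.le, show -β * (Q / s) = -(1 / 2) by rw [hβ]; field_simp] at h7
      exact h7
    have h8 : P2 ^ θ ≤ (Λ.card : ℝ) ^ (θ - 1) * ∑ j ∈ Γ k, (W (T j)) ^ (-(1 / 2) : ℝ) := by
      have h9 := Real.rpow_sum_le_const_mul_sum_rpow (Γ k)
        (fun i => (W (T i)) ^ (-(1 / (2 * θ)))) hθ
      refine h9.trans ?_
      have h10 : ∑ i ∈ Γ k, |(W (T i)) ^ (-(1 / (2 * θ)))| ^ θ =
          ∑ j ∈ Γ k, (W (T j)) ^ (-(1 / 2) : ℝ) := by
        apply sum_congr rfl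
        intro i hi
        have := hWj i hi
        rw [abs_of_nonneg (by positivity), ← Real.rpow_mul this.le]
        congr 1
        field_simp
      rw [h10]
      apply mul_le_mul_of_nonneg_right
      · apply Real.rpow_le_rpow (Nat.cast_nonneg _) _ (by linarith)
        exact_mod_cast card_le_card (hΓ k)
      · exact sum_nonneg (fun j hj => by have := hWj j hj; positivity)
    calc (∑ i ∈ Γ k, a i) ^ Q ≤ P1 ^ (Q / s) * P2 ^ θ := h5
      _ ≤ (2 ^ (Q / s) * E * (W (k + 1)) ^ (-(1 / 2) : ℝ)) *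
          ((Λ.card : ℝ) ^ (θ - 1) * ∑ j ∈ Γ k, (W (T j)) ^ (-(1 / 2) : ℝ)) :=
          mul_le_mul h6 h8 (by positivity) (by positivity)
      _ = _ := by ring
  -- conclusion
  rcases Nat.eq_zero_or_pos N with hN | hN
  · subst hN; simp; positivity
  have hΛpos : 0 < (Λ.card : ℝ) := by
    have := (hne 0 hN).mono (hΓ 0)
    exact_mod_cast this.card_pos
  have hfin : ∑ k ∈ range N, w k * (∑ i ∈ Γ k, a i) ^ Q ≤
      2 ^ (Q / s) * E * (Λ.card : ℝ) ^ (θ - 1) *
        ∑ k ∈ range N, ∑ j ∈ Γ k, w k * (W (k + 1)) ^ (-(1 / 2) : ℝ) *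
          (W (T j)) ^ (-(1 / 2) : ℝ) := by
    rw [mul_sum]
    apply sum_le_sum
    intro k hk
    have hkN := mem_range.mp hk
    have h1 := mul_le_mul_of_nonneg_left (hA k hkN) (hw k hkN).le
    refine h1.trans (le_of_eq ?_)
    rw [← mul_sum]; ring
  have hswap : ∑ k ∈ range N, ∑ j ∈ Γ k, w k * (W (k + 1)) ^ (-(1 / 2) : ℝ) *
          (W (T j)) ^ (-(1 / 2) : ℝ) ≤ 2 * (Λ.card : ℝ) := by
    have h1 : ∀ k ∈ range N, ∑ j ∈ Γ k, w k * (W (k + 1)) ^ (-(1 / 2) : ℝ) *
          (W (T j)) ^ (-(1 / 2) : ℝ) = ∑ j ∈ Λ, if j ∈ Γ k then w k * (W (k + 1)) ^ (-(1 / 2) : ℝ) *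
          (W (T j)) ^ (-(1 / 2) : ℝ) else 0 := by
      intro k _
      rw [← sum_filter]
      congr 1
      ext j
      simp only [mem_filter]
      exact ⟨fun h => ⟨hΓ k h, h⟩, fun h => h.2⟩
    rw [sum_congr rfl h1, sum_comm]
    have h2 : ∀ j ∈ Λ, ∑ k ∈ range N, (if j ∈ Γ k then w k * (W (k + 1)) ^ (-(1 / 2) : ℝ) *
          (W (T j)) ^ (-(1 / 2) : ℝ) else 0) ≤ 2 := by
      intro j _
      rw [← sum_filter]
      have h3 : (range N).filter (fun k => j ∈ Γ k) = range (T j) := by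
        ext k
        rw [mem_filter, mem_range, mem_range]
        constructor
        · rintro ⟨h4, h5⟩; exact (hTiff j k h4).mp h5
        · intro h4
          have h5 := hTN j
          exact ⟨by omega, (hTiff j k (by omega)).mpr h4⟩
      rw [h3, ← sum_mul]
      have h4 := sum_sqrt w (T j) (fun k hk => hw k (lt_of_lt_of_le hk (hTN j)))
      rcases Nat.eq_zero_or_pos (T j) with h5 | h5
      · rw [h5]; simp
      · have h6 := hWpos (T j) h5 (hTN j)
        calc _ ≤ (2 * (W (T j)) ^ ((1 / 2) : ℝ)) * (W (T j)) ^ (-(1 / 2) : ℝ) :=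
              mul_le_mul_of_nonneg_right h4 (by positivity)
          _ = 2 := by
              rw [mul_assoc, ← Real.rpow_add h6, add_neg_cancel, Real.rpow_zero, mul_one]
    calc _ ≤ ∑ _j ∈ Λ, (2 : ℝ) := sum_le_sum h2
      _ = 2 * (Λ.card : ℝ) := by rw [sum_const, nsmul_eq_mul, mul_comm]
  calc ∑ k ∈ range N, w k * (∑ i ∈ Γ k, a i) ^ Q
      ≤ 2 ^ (Q / s) * E * (Λ.card : ℝ) ^ (θ - 1) * (2 * (Λ.card : ℝ)) :=
        hfin.trans (mul_le_mul_of_nonneg_left hswap (by positivity))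
    _ = 2 ^ (1 + Q / s) * E * (Λ.card : ℝ) ^ θ := by
        rw [Real.rpow_add (by norm_num), Real.rpow_one, Real.rpow_sub hΛpos, Real.rpow_one]
        field_simp

end Pool.Agent.Y285.WG
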