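import Mathlib
import Pool.Agent.Y285.WG.Sum

set_option autoImplicit false

namespace Pool.Agent.Y285.WG

open Finset

/-- Abstract counting of the steps, general exponents. -/
lemma steps_bound {ι : Type*} [DecidableEq ι] (Λ : Finset ι) (a : ι → ℝ) (ha : ∀ i, 0 ≤ a i)
    (Γ : ℕ → Finset ι) (hΓ : ∀ k, Γ k ⊆ Λ) (hanti : ∀ k, Γ (k + 1) ⊆ Γ k)
    (N : ℕ) (u : ℕ → ℝ) (hu : ∀ k, k < N → 0 < u k) (huN : 0 ≤ u N)
    (κ D s Q : ℝ) (hκ : 0 < κ) (hD : 0 < D) (hs : 1 < s) (hQ : 1 ≤ Q)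
    (hθ : 1 ≤ Q * (1 - 1 / s))
    (hb : ∀ k, k < N → 0 < ∑ i ∈ Γ k, a i)
    (hA : ∀ k, k < N → (∑ i ∈ Γ k, a i ^ s) ^ (1 / s) ≤ D * u k)
    (hdec : ∀ k, k < N → u (k + 1) ≤ u k * (1 - κ * (u k / ∑ i ∈ Γ k, a i) ^ Q)) :
    κ * (N : ℝ) ≤ 2 ^ (2 + Q / s) * D ^ Q * (Λ.card : ℝ) ^ (Q * (1 - 1 / s)) := by
  have hs0 : 0 < s := by linarith
  have hQ0 : 0 < Q := by linarith
  set b : ℕ → ℝ := fun k => ∑ i ∈ Γ k, a i with hbdef
  set w : ℕ → ℝ := fun k => κ / b k ^ Q with hw
  have hwpos : ∀ k, k < N → 0 < w k := fun k hk => by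
    have : 0 < b k := hb k hk
    simp only [hw]; positivity
  have hne : ∀ k, k < N → (Γ k).Nonempty := by
    intro k hk
    by_contra hcon
    rw [not_nonempty_iff_eq_empty] at hcon
    have := hb k hk
    rw [hcon, sum_empty] at this
    exact lt_irrefl _ this
  have hu0 : ∀ k, k ≤ N → 0 ≤ u k := by
    intro k hk
    rcases hk.lt_or_eq with h | h
    · exact (hu k h).le
    · rw [h]; exact huN
  have hconv : ∀ k, k < N → κ * (u k / b k) ^ Q = w k * u k ^ Q := by
    intro k hk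
    rw [Real.div_rpow (hu k hk).le (hb k hk).le]
    simp only [hw]; ring
  -- one step
  have hone : ∀ k, k < N → w k * u k ^ Q ≤ 1 := by
    intro k hk
    have h1 := hdec k hk
    have h2 := hu0 (k + 1) (by omega)
    have h3 := hu k hk
    change u (k + 1) ≤ u k * (1 - κ * (u k / b k) ^ Q) at h1
    rw [hconv k hk] at h1
    by_contra hcon
    push Not at hcon
    have : u k * (1 - w k * u k ^ Q) < 0 := mul_neg_of_pos_of_neg h3 (by linarith)
    linarith
  have hstep : ∀ k, k + 1 < N → 1 / u k ^ Q + w k ≤ 1 / u (k + 1) ^ Q := by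
    intro k hk
    have h1 := hdec k (by omega)
    have h2 := hu (k + 1) hk
    have h3 := hu k (by omega)
    change u (k + 1) ≤ u k * (1 - κ * (u k / b k) ^ Q) at h1
    rw [hconv k (by omega)] at h1
    have h5 := hwpos k (by omega)
    set z : ℝ := w k * u k ^ Q with hz
    have hz0 : 0 < z := by positivity
    have hz1 : z < 1 := by
      by_contra hcon
      push Not at hcon
      have : u k * (1 - z) ≤ 0 := mul_nonpos_of_nonneg_of_nonpos h3.le (by linarith)
      linarith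
    have h6 : u (k + 1) * (1 + z) ≤ u k := by
      calc u (k + 1) * (1 + z) ≤ u k * (1 - z) * (1 + z) :=
            mul_le_mul_of_nonneg_right h1 (by linarith)
        _ = u k * (1 - z ^ 2) := by ring
        _ ≤ u k := by nlinarith [sq_nonneg z, mul_nonneg h3.le (sq_nonneg z)]
    have h7 : (u (k + 1) * (1 + z)) ^ Q ≤ u k ^ Q :=
      Real.rpow_le_rpow (by positivity) h6 hQ0.le
    rw [Real.mul_rpow h2.le (by positivity)] at h7
    have h8 : 1 + Q * z ≤ (1 + z) ^ Q := one_add_mul_self_le_rpow_one_add (by linarith) hQ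
    have h9 : 0 < u (k + 1) ^ Q := by positivity
    have h10 : 0 < u k ^ Q := by positivity
    have h11 : u (k + 1) ^ Q * (1 + z) ≤ u k ^ Q := by
      refine le_trans ?_ h7
      apply mul_le_mul_of_nonneg_left _ h9.le
      nlinarith
    have h12 : 1 / u k ^ Q + w k = (1 + z) / u k ^ Q := by
      rw [hz]; field_simp
    rw [h12, div_le_div_iff₀ h10 h9]
    linarith
  have hW : ∀ k, k < N → ∑ l ∈ range k, w l ≤ 1 / u k ^ Q := by
    intro k
    induction k with
    | zero =>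
      intro h0
      have := hu 0 h0
      simp; positivity
    | succ k ih =>
      intro hk
      rw [sum_range_succ]
      have h1 := ih (by omega)
      have h2 := hstep k hk
      linarith
  have hmain := sum_bound Λ a ha Γ hΓ hanti N w hwpos hne (2 * D ^ Q) s Q (by positivity) hs hQ0
    hθ (by
    intro k hk
    have h1 := hW k hk
    have h2 := hone k hk
    have h3 := hu k hk
    have h10 : 0 < u k ^ Q := by positivity
    have h4 : ∑ l ∈ range (k + 1), w l ≤ 2 / u k ^ Q := by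
      rw [sum_range_succ]
      have h5 : w k ≤ 1 / u k ^ Q := by rw [le_div_iff₀ h10]; exact h2
      have h6 : (2 : ℝ) / u k ^ Q = 1 / u k ^ Q + 1 / u k ^ Q := by ring
      rw [h6]; linarith
    have h7 : 0 ≤ ∑ i ∈ Γ k, a i ^ s := sum_nonneg (fun i _ => Real.rpow_nonneg (ha i) s)
    have h8 : (∑ i ∈ Γ k, a i ^ s) ^ (Q / s) ≤ (D * u k) ^ Q := by
      have := Real.rpow_le_rpow (Real.rpow_nonneg h7 _) (hA k hk) hQ0.le
      rwa [← Real.rpow_mul h7, show 1 / s * Q = Q / s by ring] at this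
    calc (∑ l ∈ range (k + 1), w l) * (∑ i ∈ Γ k, a i ^ s) ^ (Q / s)
        ≤ 2 / u k ^ Q * (D * u k) ^ Q :=
          mul_le_mul h4 h8 (Real.rpow_nonneg h7 _) (by positivity)
      _ = 2 * D ^ Q := by rw [Real.mul_rpow hD.le h3.le]; field_simp)
  have hS : ∑ k ∈ range N, w k * (∑ i ∈ Γ k, a i) ^ Q = κ * N := by
    rw [sum_congr rfl (fun k hk => ?_)]
    · rw [sum_const, card_range, nsmul_eq_mul, mul_comm]
    · have : 0 < b k := hb k (mem_range.mp hk)
      show κ / b k ^ Q * b k ^ Q = κ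
      field_simp
  rw [hS] at hmain
  refine hmain.trans (le_of_eq ?_)
  rw [show (2:ℝ) + Q / s = 1 + Q / s + 1 by ring, Real.rpow_add (by norm_num) (1 + Q / s) 1,
    Real.rpow_one]
  ring

end Pool.Agent.Y285.WG
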