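import Mathlib
import Pool.Agent.Y285.WG.Steps

/-!
The weak Chebyshev greedy algorithm in a real normed space with modulus of smoothness of power
type `q`, for a system satisfying a lower `s`-estimate: a Lebesgue type inequality without
logarithm.
-/

set_option autoImplicit false

namespace Pool.Agent.Y285.WG

open Finset

variable {V : Type*} [NormedAddCommGroup V] [NormedSpace ℝ V] {ι : Type*}

/-- The modulus of smoothness of `V` satisfies `ρ(u) ≤ γ u^q`. -/
def SmoothOfPower (V : Type*) [NormedAddCommGroup V] [NormedSpace ℝ V] (q γ : ℝ) : Prop :=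
  ∀ x y : V, ‖x‖ = 1 → ‖x + y‖ + ‖x - y‖ ≤ 2 + 2 * γ * ‖y‖ ^ q

/-- The system `ψ` satisfies a lower `s`-estimate with constant `B`:
`(∑_j |c_j|^s)^{1/s} ≤ B ‖∑_j c_j ψ_j‖` for all finite sums. -/
def LowerEstimate (ψ : ι → V) (s B : ℝ) : Prop :=
  ∀ c : ι →₀ ℝ, (∑ j ∈ c.support, |c j| ^ s) ^ (1 / s) ≤ B * ‖c.sum fun j x => x • ψ j‖

/-- `F f` is a norming functional of `f`, for every `f ≠ 0`: it is linear, bounded by the norm, and
takes the value `‖f‖` at `f`. -/
structure IsNorming (F : V → V → ℝ) : Prop where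
  add : ∀ f g h, f ≠ 0 → F f (g + h) = F f g + F f h
  smul : ∀ f g (c : ℝ), f ≠ 0 → F f (c • g) = c * F f g
  le : ∀ f g, f ≠ 0 → |F f g| ≤ ‖g‖
  self : ∀ f, f ≠ 0 → F f f = ‖f‖

/-- Best `m`-term error of `f` with respect to `ψ`. -/
noncomputable def sigma (ψ : ι → V) (m : ℕ) (f : V) : ℝ :=
  sInf {e : ℝ | ∃ (Λ : Finset ι) (c : ι → ℝ), Λ.card ≤ m ∧ e = ‖f - ∑ j ∈ Λ, c j • ψ j‖}

/-- The span of the first `k` picked elements. -/
def picked (ψ : ι → V) (s : ℕ → ι) (k : ℕ) : Submodule ℝ V :=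
  Submodule.span ℝ ((fun i => ψ (s i)) '' Set.Iio k)

/-- `G` is a best approximation of `f` from `W`. -/
def IsBestApprox (f G : V) (W : Submodule ℝ V) : Prop :=
  G ∈ W ∧ ∀ h ∈ W, ‖f - G‖ ≤ ‖f - h‖

/-- The weak greedy condition for the choice of the index `i` at the residual `f`. -/
def WeakGreedy (F : V → V → ℝ) (ψ : ι → V) (t : ℝ) (f : V) (i : ι) : Prop :=
  ∀ j, t * |F f (ψ j)| ≤ |F f (ψ i)|

/-- `r` is the sequence of residuals `f_0, f_1, ...` of a run of the Weak Chebyshev Greedy Algorithm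
with weakness parameter `t` started at `f₀`, where `F f` is the norming functional of `f` and `s k`
is the index of the element picked at step `k + 1`. -/
def IsRun (F : V → V → ℝ) (ψ : ι → V) (t : ℝ) (f₀ : V) (s : ℕ → ι) (r : ℕ → V) : Prop :=
  r 0 = f₀ ∧
  ∀ k, (r k = 0 → r (k + 1) = 0) ∧
    (r k ≠ 0 → WeakGreedy F ψ t (r k) (s k) ∧
      ∃ G, IsBestApprox f₀ G (picked ψ s (k + 1)) ∧ r (k + 1) = f₀ - G)

/-- The decrease by one element of the dictionary. -/
lemma decrease {q γ : ℝ} (hq : 1 < q) (hγ : 0 < γ) (hsm : SmoothOfPower V q γ)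
    {F : V → V → ℝ} (hF : IsNorming F) {r φ : V} (hr : r ≠ 0) (hφ : ‖φ‖ ≤ 1) :
    ∃ l : ℝ, ‖r - l • φ‖ ≤
      ‖r‖ * (1 - 1 / 2 * (4 * γ) ^ (-(1 / (q - 1))) * |F r φ| ^ (q / (q - 1))) := by
  have hu : 0 < ‖r‖ := norm_pos_iff.mpr hr
  have hq1 : 0 < q - 1 := by linarith
  have h4γ : 0 < 4 * γ := by linarith
  set a : ℝ := |F r φ| with ha
  have ha0 : 0 ≤ a := abs_nonneg _
  rcases ha0.eq_or_lt with h0 | h0
  · refine ⟨0, ?_⟩
    rw [← h0, Real.zero_rpow (by positivity), mul_zero, sub_zero, mul_one, zero_smul, sub_zero]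
  set μ : ℝ := (a / (4 * γ)) ^ (1 / (q - 1)) with hμ
  have hμ0 : 0 < μ := by positivity
  have hμq : μ ^ q = μ * (a / (4 * γ)) := by
    have h1 : μ ^ q = μ * μ ^ (q - 1) := by
      rw [← Real.rpow_one_add' hμ0.le (by linarith)]; congr 1; ring
    rw [h1, hμ, ← Real.rpow_mul (by positivity), one_div, inv_mul_cancel₀ hq1.ne', Real.rpow_one]
  set ν : ℝ := ((SignType.sign (F r φ) : SignType) : ℝ) with hν
  have hν1 : |ν| ≤ 1 := by
    rw [hν]
    rcases lt_trichotomy (F r φ) 0 with h | h | h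
    · simp [sign_neg h]
    · simp [h]
    · simp [sign_pos h]
  have hνF : ν * F r φ = a := by rw [hν, ha]; exact sign_mul_self (F r φ)
  refine ⟨‖r‖ * μ * ν, ?_⟩
  set y : V := (μ * ν) • φ with hy
  have hyn : ‖y‖ ≤ μ := by
    rw [hy, norm_smul, Real.norm_eq_abs, abs_mul, abs_of_pos hμ0]
    calc μ * |ν| * ‖φ‖ ≤ μ * 1 * 1 := by
          apply mul_le_mul (mul_le_mul_of_nonneg_left hν1 hμ0.le) hφ (norm_nonneg _) (by positivity)
      _ = μ := by ring
  set x : V := (‖r‖⁻¹) • r with hx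
  have hxn : ‖x‖ = 1 := by
    rw [hx, norm_smul, norm_inv, norm_norm, inv_mul_cancel₀ hu.ne']
  have h1 := hsm x y hxn
  have h2 : 1 + μ * a ≤ ‖x + y‖ := by
    have h3 : F r (x + y) = 1 + μ * a := by
      rw [hF.add _ _ _ hr, hx, hy, hF.smul _ _ _ hr, hF.smul _ _ _ hr, hF.self _ hr,
        inv_mul_cancel₀ hu.ne', mul_assoc, hνF]
    have h4 := hF.le r (x + y) hr
    rw [h3] at h4
    exact (le_abs_self _).trans h4
  have h3 : ‖y‖ ^ q ≤ μ ^ q := Real.rpow_le_rpow (norm_nonneg _) hyn (by linarith)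
  have h4 : ‖x - y‖ ≤ 1 - μ * a / 2 := by
    have h5 : 2 * γ * ‖y‖ ^ q ≤ 2 * γ * μ ^ q := mul_le_mul_of_nonneg_left h3 (by linarith)
    have h6 : 2 * γ * μ ^ q = μ * a / 2 := by rw [hμq]; field_simp; ring
    linarith
  have h5 : r - (‖r‖ * μ * ν) • φ = ‖r‖ • (x - y) := by
    rw [hx, hy, smul_sub, smul_smul, smul_smul, mul_inv_cancel₀ hu.ne', one_smul, mul_assoc]
  rw [h5, norm_smul, norm_norm]
  apply mul_le_mul_of_nonneg_left _ hu.le
  refine h4.trans (le_of_eq ?_)
  congr 1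
  rw [hμ, Real.div_rpow ha0 h4γ.le, Real.rpow_neg h4γ.le,
    show q / (q - 1) = 1 / (q - 1) + 1 by field_simp; ring, Real.rpow_add h0, Real.rpow_one]
  field_simp

lemma F_sum {F : V → V → ℝ} (hF : IsNorming F) {r : V} (hr : r ≠ 0) (Λ : Finset ι) (c : ι → ℝ)
    (ψ : ι → V) : F r (∑ j ∈ Λ, c j • ψ j) = ∑ j ∈ Λ, c j * F r (ψ j) := by
  classical
  induction Λ using Finset.induction_on with
  | empty =>
    have := hF.smul r 0 0 hr
    rw [smul_zero, zero_mul] at this
    simpa using this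
  | insert a Λ' ha ih =>
    rw [sum_insert ha, sum_insert ha, hF.add _ _ _ hr, hF.smul _ _ _ hr, ih]

/-- The constant in the number of steps. -/
noncomputable def stepConst (q γ s B t ε : ℝ) : ℝ :=
  2 ^ (3 + (q / (q - 1)) / s) * (4 * γ) ^ (1 / (q - 1)) *
    (2 * B * (1 + ε) / (t * ε)) ^ (q / (q - 1)) + 1

/-- **Abstract theorem.** -/
theorem abstract_main {q γ : ℝ} (hq : 1 < q) (hγ : 0 < γ) (hsm : SmoothOfPower V q γ)
    {F : V → V → ℝ} (hF : IsNorming F) {s : ℝ} (hs : 1 < s)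
    (hθ : 1 ≤ q / (q - 1) * (1 - 1 / s)) (ψ : ι → V) (hψ : ∀ j, ‖ψ j‖ ≤ 1) {B : ℝ} (hB : 0 < B)
    (hBe : LowerEstimate ψ s B) {t : ℝ} (ht : 0 < t) {ε : ℝ} (hε : 0 < ε)
    (f₀ : V) (p : ℕ → ι) (r : ℕ → V) (hrun : IsRun F ψ t f₀ p r) (m : ℕ) (hm : 1 ≤ m)
    (n : ℕ) (hn : stepConst q γ s B t ε * (m : ℝ) ^ (q / (q - 1) * (1 - 1 / s)) ≤ n) :
    ‖r n‖ ≤ (1 + ε) * sigma ψ m f₀ := by
  classical
  obtain ⟨hr0, hstep⟩ := hrun
  set Q : ℝ := q / (q - 1) with hQdef
  have hq1 : 0 < q - 1 := by linarith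
  have hQ1 : 1 ≤ Q := by rw [hQdef, le_div_iff₀ hq1]; linarith
  have hQ0 : 0 < Q := by linarith
  -- all residuals are best residuals
  have hall : ∀ k, IsBestApprox f₀ (f₀ - r k) (picked ψ p k) ∨ r k = 0 ∧ f₀ ∈ picked ψ p k := by
    intro k
    induction k with
    | zero =>
      left
      rw [hr0]
      refine ⟨by simp, ?_⟩
      intro h hh
      simp only [picked, Set.mem_Iio, not_lt_zero, Set.image_eq_empty] at hh
      have hem : ((fun i => ψ (p i)) '' Set.Iio 0) = ∅ := by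
        ext x; simp
      rw [hem, Submodule.span_empty, Submodule.mem_bot] at hh
      simp [hh]
    | succ k ih =>
      by_cases hk : r k = 0
      · right
        have hk1 := (hstep k).1 hk
        refine ⟨hk1, ?_⟩
        have h1 : f₀ ∈ picked ψ p k := by
          rcases ih with h | h
          · have := h.1; rwa [hk, sub_zero] at this
          · exact h.2
        exact Submodule.span_mono (Set.image_mono (Set.Iio_subset_Iio (Nat.le_succ k))) h1
      · left
        obtain ⟨_, G, hG, hrG⟩ := (hstep k).2 hk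
        rw [hrG, sub_sub_cancel]
        exact hG
  have hbest : ∀ k, (f₀ - r k) ∈ picked ψ p k ∧ ∀ h ∈ picked ψ p k, ‖r k‖ ≤ ‖f₀ - h‖ := by
    intro k
    rcases hall k with h | h
    · refine ⟨h.1, fun g hg => ?_⟩
      have := h.2 g hg
      rwa [sub_sub_cancel] at this
    · refine ⟨by rw [h.1, sub_zero]; exact h.2, fun g _ => by rw [h.1, norm_zero]; exact norm_nonneg _⟩
  have hpmono : ∀ k l, k ≤ l → picked ψ p k ≤ picked ψ p l := fun k l hkl =>
    Submodule.span_mono (Set.image_mono (Set.Iio_subset_Iio hkl))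
  have hanti : ∀ k l, k ≤ l → ‖r l‖ ≤ ‖r k‖ := by
    intro k l hkl
    have := (hbest l).2 (f₀ - r k) (hpmono k l hkl (hbest k).1)
    rwa [sub_sub_cancel] at this
  -- orthogonality
  have hort : ∀ k, r k ≠ 0 → ∀ i, i < k → F (r k) (ψ (p i)) = 0 := by
    intro k hk i hi
    by_contra hcon
    obtain ⟨l, hl⟩ := decrease hq hγ hsm hF hk (hψ (p i))
    have hu : 0 < ‖r k‖ := norm_pos_iff.mpr hk
    have h1 : 0 < |F (r k) (ψ (p i))| := abs_pos.mpr hcon
    have h2 : 0 < 1 / 2 * (4 * γ) ^ (-(1 / (q - 1))) * |F (r k) (ψ (p i))| ^ (q / (q - 1)) := by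
      positivity
    have h3 : ‖r k - l • ψ (p i)‖ < ‖r k‖ := by
      refine lt_of_le_of_lt hl ?_
      nlinarith
    have h4 : ψ (p i) ∈ picked ψ p k := Submodule.subset_span ⟨i, hi, rfl⟩
    have h5 := (hbest k).2 ((f₀ - r k) + l • ψ (p i))
      (Submodule.add_mem _ (hbest k).1 (Submodule.smul_mem _ l h4))
    rw [show f₀ - (f₀ - r k + l • ψ (p i)) = r k - l • ψ (p i) by abel] at h5
    exact absurd h5 (not_le.mpr h3)
  -- the bound for one approximant
  have hbound : ∀ (Λ : Finset ι) (c : ι → ℝ), Λ.card ≤ m →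
      ‖r n‖ ≤ (1 + ε) * ‖f₀ - ∑ j ∈ Λ, c j • ψ j‖ := by
    intro Λ c hcard
    by_contra hcon
    push Not at hcon
    set h : V := ∑ j ∈ Λ, c j • ψ j with hh
    set g : ℝ := ‖f₀ - h‖ with hg
    have hg0 : 0 ≤ g := norm_nonneg _
    have hubig : ∀ k, k ≤ n → (1 + ε) * g < ‖r k‖ := fun k hk => hcon.trans_le (hanti k n hk)
    have hupos : ∀ k, k ≤ n → 0 < ‖r k‖ := fun k hk =>
      lt_of_le_of_lt (by positivity) (hubig k hk)
    have hune : ∀ k, k ≤ n → r k ≠ 0 := fun k hk => norm_pos_iff.mp (hupos k hk)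
    set Γ : ℕ → Finset ι := fun k => Λ.filter (fun j => ∀ i, i < k → p i ≠ j) with hΓ
    have hΓmem : ∀ k j, j ∈ Γ k ↔ j ∈ Λ ∧ ∀ i, i < k → p i ≠ j := by
      intro k j; simp [hΓ]
    -- the functional at `h`
    have hFh : ∀ k, k ≤ n → F (r k) h = ∑ j ∈ Γ k, c j * F (r k) (ψ j) := by
      intro k hk
      rw [hh, F_sum hF (hune k hk)]
      symm
      apply sum_subset (filter_subset _ _)
      intro j hj hjn
      have : ∃ i, i < k ∧ p i = j := by
        by_contra hno
        push Not at hno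
        exact hjn ((hΓmem k j).mpr ⟨hj, hno⟩)
      obtain ⟨i, hi, hij⟩ := this
      rw [← hij, hort k (hune k hk) i hi, mul_zero]
    have hFr : ∀ k, k ≤ n → F (r k) (f₀ - r k) = 0 := by
      intro k hk
      have hmem := (hbest k).1
      have hkey : ∀ v ∈ picked ψ p k, F (r k) v = 0 := by
        intro v hv
        induction hv using Submodule.span_induction with
        | mem x hx =>
          obtain ⟨i, hi, rfl⟩ := hx
          exact hort k (hune k hk) i hi
        | zero =>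
          have := hF.smul (r k) 0 0 (hune k hk)
          rw [smul_zero, zero_mul] at this
          exact this
        | add x y _ _ hx hy => rw [hF.add _ _ _ (hune k hk), hx, hy, add_zero]
        | smul a x _ hx => rw [hF.smul _ _ _ (hune k hk), hx, mul_zero]
      exact hkey _ hmem
    have hFge : ∀ k, k ≤ n → ‖r k‖ - g ≤ F (r k) h := by
      intro k hk
      have h1 : f₀ = (f₀ - r k) + r k := by abel
      have h2 : F (r k) f₀ = ‖r k‖ := by
        rw [h1, hF.add _ _ _ (hune k hk), hFr k hk, hF.self _ (hune k hk), zero_add]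
      have h3 : F (r k) f₀ = F (r k) h + F (r k) (f₀ - h) := by
        rw [← hF.add _ _ _ (hune k hk)]; congr 1; abel
      have h4 := (abs_le.mp (hF.le (r k) (f₀ - h) (hune k hk))).2
      linarith
    -- lower bound of the chosen functional value
    have hpick : ∀ k, k ≤ n → t * (‖r k‖ - g) ≤ |F (r k) (ψ (p k))| * ∑ j ∈ Γ k, |c j| := by
      intro k hk
      have h1 := ((hstep k).2 (hune k hk)).1
      have h2 := hFge k hk
      rw [hFh k hk] at h2
      calc t * (‖r k‖ - g) ≤ t * ∑ j ∈ Γ k, c j * F (r k) (ψ j) := mul_le_mul_of_nonneg_left h2 ht.le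
        _ ≤ t * ∑ j ∈ Γ k, |c j| * |F (r k) (ψ j)| := by
            apply mul_le_mul_of_nonneg_left _ ht.le
            apply sum_le_sum
            intro j _
            rw [← abs_mul]; exact le_abs_self _
        _ = ∑ j ∈ Γ k, |c j| * (t * |F (r k) (ψ j)|) := by
            rw [mul_sum]; apply sum_congr rfl; intro j _; ring
        _ ≤ ∑ j ∈ Γ k, |c j| * |F (r k) (ψ (p k))| := by
            apply sum_le_sum
            intro j _
            exact mul_le_mul_of_nonneg_left (h1 j) (abs_nonneg _)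
        _ = |F (r k) (ψ (p k))| * ∑ j ∈ Γ k, |c j| := by rw [← sum_mul, mul_comm]
    have hratio : ∀ k, k ≤ n → t * (ε / (1 + ε)) * ‖r k‖ ≤ t * (‖r k‖ - g) := by
      intro k hk
      rw [mul_assoc]
      apply mul_le_mul_of_nonneg_left _ ht.le
      have h1 := hubig k hk
      have h2 : ε / (1 + ε) * ‖r k‖ = ‖r k‖ - ‖r k‖ / (1 + ε) := by field_simp; ring
      have h3 : g ≤ ‖r k‖ / (1 + ε) := by
        rw [le_div_iff₀ (by positivity)]; linarith
      linarith
    have hApos : ∀ k, k < n → 0 < ∑ i ∈ Γ k, |c i| := by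
      intro k hk
      have h1 := hpick k hk.le
      have h2 := hratio k hk.le
      have h3 : 0 < t * (ε / (1 + ε)) * ‖r k‖ := by have := hupos k hk.le; positivity
      by_contra hno
      have h4 : ∑ i ∈ Γ k, |c i| = 0 :=
        le_antisymm (not_lt.mp hno) (sum_nonneg (fun i _ => abs_nonneg _))
      rw [h4, mul_zero] at h1
      linarith
    set κ : ℝ := 1 / 2 * (4 * γ) ^ (-(1 / (q - 1))) * (t * (ε / (1 + ε))) ^ Q with hκ
    have hκ0 : 0 < κ := by positivity
    have hdec : ∀ k, k < n → ‖r (k + 1)‖ ≤ ‖r k‖ * (1 - κ * (‖r k‖ / ∑ i ∈ Γ k, |c i|) ^ Q) := by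
      intro k hk
      obtain ⟨l, hl⟩ := decrease hq hγ hsm hF (hune k hk.le) (hψ (p k))
      have h4 : ψ (p k) ∈ picked ψ p (k + 1) :=
        Submodule.subset_span ⟨k, Nat.lt_succ_self k, rfl⟩
      have h5 := (hbest (k + 1)).2 ((f₀ - r k) + l • ψ (p k))
        (Submodule.add_mem _ (hpmono k (k + 1) (by omega) (hbest k).1) (Submodule.smul_mem _ l h4))
      rw [show f₀ - (f₀ - r k + l • ψ (p k)) = r k - l • ψ (p k) by abel] at h5
      refine h5.trans (hl.trans ?_)
      apply mul_le_mul_of_nonneg_left _ (norm_nonneg _)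
      have hAk := hApos k hk
      have h6 : t * (ε / (1 + ε)) * (‖r k‖ / ∑ i ∈ Γ k, |c i|) ≤ |F (r k) (ψ (p k))| := by
        rw [← mul_div_assoc, div_le_iff₀ hAk]
        exact (hratio k hk.le).trans (hpick k hk.le)
      have h7 : (t * (ε / (1 + ε)) * (‖r k‖ / ∑ i ∈ Γ k, |c i|)) ^ Q ≤
          |F (r k) (ψ (p k))| ^ Q := by
        apply Real.rpow_le_rpow _ h6 hQ0.le
        positivity
      rw [Real.mul_rpow (by positivity) (by positivity)] at h7
      have h8 : κ * (‖r k‖ / ∑ i ∈ Γ k, |c i|) ^ Q =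
          1 / 2 * (4 * γ) ^ (-(1 / (q - 1))) * ((t * (ε / (1 + ε))) ^ Q *
            (‖r k‖ / ∑ i ∈ Γ k, |c i|) ^ Q) := by rw [hκ]; ring
      rw [h8]
      have h9 := mul_le_mul_of_nonneg_left h7
        (by positivity : 0 ≤ 1 / 2 * (4 * γ) ^ (-(1 / (q - 1))))
      linarith
    -- lower estimate
    have hlow : ∀ k, k < n → (∑ i ∈ Γ k, |c i| ^ s) ^ (1 / s) ≤ 2 * B * ‖r k‖ := by
      intro k hk
      have h1 : h - (f₀ - r k) ∈ Submodule.span ℝ (ψ '' {j | j ∉ Γ k}) +
          Submodule.span ℝ (ψ '' (Γ k : Set ι)) := by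
        rw [Submodule.add_eq_sup, ← Submodule.span_union, ← Set.image_union]
        have h2 : ({j | j ∉ Γ k} ∪ (Γ k : Set ι)) = Set.univ := by
          ext j; simp only [Set.mem_union, Set.mem_setOf_eq, mem_coe, Set.mem_univ, iff_true]
          exact (em (j ∈ Γ k)).symm
        rw [h2, Set.image_univ]
        apply Submodule.sub_mem
        · rw [hh]
          exact Submodule.sum_mem _ (fun j _ => Submodule.smul_mem _ _
            (Submodule.subset_span ⟨j, rfl⟩))
        · refine Submodule.span_mono ?_ (hbest k).1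
          rintro _ ⟨i, _, rfl⟩
          exact ⟨p i, rfl⟩
      -- write `f₀ - r k` as a combination of picked elements
      have h2 : picked ψ p k ≤ Submodule.span ℝ (ψ '' (p '' Set.Iio k)) := by
        rw [picked, Set.image_image]
      obtain ⟨d, hd, hdv⟩ := (Finsupp.mem_span_image_iff_linearCombination ℝ).mp (h2 (hbest k).1)
      set e : ι →₀ ℝ := Finsupp.onFinset Λ (fun j => if j ∈ Λ then c j else 0)
        (fun j hj => by by_contra hno; simp [hno] at hj) with he
      have hev : (e.sum fun j x => x • ψ j) = h := by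
        rw [Finsupp.sum_of_support_subset e (s := Λ) (by rw [he]; exact Finsupp.support_onFinset_subset)
          (fun j x => x • ψ j) (fun j _ => zero_smul _ _), hh]
        apply sum_congr rfl
        intro j hj
        simp [he, hj]
      have h3 := hBe (e - d)
      have h4 : ((e - d).sum fun j x => x • ψ j) = h - (f₀ - r k) := by
        rw [← hev, ← hdv, Finsupp.linearCombination_apply, Finsupp.sum_sub_index]
        intro a b1 b2; exact sub_smul _ _ _
      rw [h4] at h3
      have h5 : ∀ j ∈ Γ k, (e - d) j = c j := by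
        intro j hj
        have hj' := (hΓmem k j).mp hj
        have h6 : d j = 0 := by
          rw [← Finsupp.notMem_support_iff]
          intro hjd
          have := hd hjd
          obtain ⟨i, hi, hij⟩ := this
          exact hj'.2 i hi hij
        rw [Finsupp.sub_apply, h6, sub_zero, he]
        simp [hj'.1]
      have h6 : ∑ i ∈ Γ k, |c i| ^ s ≤ ∑ j ∈ (e - d).support, |(e - d) j| ^ s := by
        have h7 : ∑ i ∈ Γ k, |c i| ^ s = ∑ i ∈ Γ k, |(e - d) i| ^ s :=
          sum_congr rfl (fun j hj => by rw [h5 j hj])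
        rw [h7]
        rw [← sum_filter_add_sum_filter_not (Γ k) (fun j => j ∈ (e - d).support)]
        have h8 : ∑ i ∈ (Γ k).filter (fun j => ¬ j ∈ (e - d).support), |(e - d) i| ^ s = 0 := by
          apply sum_eq_zero
          intro j hj
          have := (mem_filter.mp hj).2
          rw [Finsupp.notMem_support_iff] at this
          rw [this, abs_zero, Real.zero_rpow (by linarith)]
        rw [h8, add_zero]
        apply sum_le_sum_of_subset_of_nonneg
        · intro j hj; exact (mem_filter.mp hj).2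
        · intro j _ _; positivity
      have h7 : ‖h - (f₀ - r k)‖ ≤ 2 * ‖r k‖ := by
        have h8 : h - (f₀ - r k) = r k - (f₀ - h) := by abel
        rw [h8]
        refine (norm_sub_le _ _).trans ?_
        have h9 := hubig k hk.le
        have : g ≤ (1 + ε) * g := by nlinarith
        linarith
      calc (∑ i ∈ Γ k, |c i| ^ s) ^ (1 / s)
          ≤ (∑ j ∈ (e - d).support, |(e - d) j| ^ s) ^ (1 / s) := by
            apply Real.rpow_le_rpow _ h6 (by positivity)
            exact sum_nonneg (fun i _ => by positivity)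
        _ ≤ B * ‖h - (f₀ - r k)‖ := h3
        _ ≤ B * (2 * ‖r k‖) := mul_le_mul_of_nonneg_left h7 hB.le
        _ = 2 * B * ‖r k‖ := by ring
    have hmain := steps_bound Λ (fun j => |c j|) (fun j => abs_nonneg _) Γ
      (fun k => filter_subset _ _) (fun k j hj => by
        rw [hΓmem] at hj ⊢
        exact ⟨hj.1, fun i hi => hj.2 i (by omega)⟩) n (fun k => ‖r k‖)
      (fun k hk => hupos k hk.le) (norm_nonneg _) κ (2 * B) s Q hκ0 (by positivity) hs hQ1 hθ
      hApos hlow hdec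
    set θ : ℝ := Q * (1 - 1 / s) with hθdef
    have hmpos : (0:ℝ) < m := by exact_mod_cast hm
    have hΛm : (Λ.card : ℝ) ^ θ ≤ (m : ℝ) ^ θ := by
      apply Real.rpow_le_rpow (Nat.cast_nonneg _) _ (by linarith)
      exact_mod_cast hcard
    have hmθ : 0 < (m : ℝ) ^ θ := by positivity
    have h1 : κ * (stepConst q γ s B t ε * (m : ℝ) ^ θ) ≤
        2 ^ (2 + Q / s) * (2 * B) ^ Q * (m : ℝ) ^ θ := by
      calc κ * (stepConst q γ s B t ε * (m : ℝ) ^ θ) ≤ κ * n := mul_le_mul_of_nonneg_left hn hκ0.le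
        _ ≤ _ := hmain
        _ ≤ _ := mul_le_mul_of_nonneg_left hΛm (by positivity)
    have h2 : κ * (stepConst q γ s B t ε - 1) = 2 ^ (2 + Q / s) * (2 * B) ^ Q := by
      have e1 : stepConst q γ s B t ε - 1 = 2 ^ (3 + Q / s) * (4 * γ) ^ (1 / (q - 1)) *
          (2 * B * (1 + ε) / (t * ε)) ^ Q := by unfold stepConst; ring
      have e2 : (2 * B * (1 + ε) / (t * ε)) ^ Q = (2 * B) ^ Q / (t * (ε / (1 + ε))) ^ Q := by
        rw [← Real.div_rpow (by positivity) (by positivity)]
        congr 1; field_simp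
      have e3 : (2:ℝ) ^ (3 + Q / s) = 2 * 2 ^ (2 + Q / s) := by
        rw [show (3:ℝ) + Q / s = 1 + (2 + Q / s) by ring, Real.rpow_add (by norm_num) 1,
          Real.rpow_one]
      rw [e1, e2, e3, hκ, Real.rpow_neg (by positivity)]
      have h3 : (0:ℝ) < (t * (ε / (1 + ε))) ^ Q := by positivity
      have h4 : (0:ℝ) < (4 * γ) ^ (1 / (q - 1)) := by positivity
      field_simp
    have h3 : κ * stepConst q γ s B t ε ≤ 2 ^ (2 + Q / s) * (2 * B) ^ Q := by
      have : κ * stepConst q γ s B t ε * (m : ℝ) ^ θ ≤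
          2 ^ (2 + Q / s) * (2 * B) ^ Q * (m : ℝ) ^ θ := by rw [mul_assoc]; exact h1
      exact le_of_mul_le_mul_right this hmθ
    rw [← h2] at h3
    nlinarith
  have h1ε : 0 < 1 + ε := by linarith
  unfold sigma
  rw [← div_le_iff₀' h1ε]
  apply le_csInf
  · exact ⟨_, ∅, 0, by simp, rfl⟩
  · rintro e ⟨Λ, c, hcard, rfl⟩
    rw [div_le_iff₀' h1ε]
    exact hbound Λ c hcard

end Pool.Agent.Y285.WG
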