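import Mathlib
import Pool.Agent.Helper415.WC4
import Pool.Agent.Y285.WG.Abs

/-!
Real `L_p` spaces, `2 ≤ p < ∞`: modulus of smoothness of power type two, norming functionals, and
the lower two-estimate for uniformly bounded orthogonal systems.
-/

set_option autoImplicit false

open MeasureTheory
open scoped ENNReal

namespace Pool.Agent.Y285.WG

open Pool.Agent.Helper415

variable {X : Type*} [MeasurableSpace X] {μ : Measure X} {p : ℝ≥0∞}

/-- Orthogonality in `L_2(μ)`. -/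
def Orth (μ : Measure X) (f g : X → ℝ) : Prop := ∫ x, f x * g x ∂μ = 0

/-- `|f| ≤ M` almost everywhere. -/
def BddBy (μ : Measure X) (M : ℝ) (f : X → ℝ) : Prop := ∀ᵐ x ∂μ, |f x| ≤ M

/-- The integral `∫ |f|^(q-2) f g`. -/
noncomputable def pairing (μ : Measure X) (q : ℝ) (f g : X → ℝ) : ℝ :=
  ∫ x, |f x| ^ (q - 2) * f x * g x ∂μ

/-- An orthogonal system normalized in the real space `L_p(μ)` and bounded by `M`. It need not be a
basis, and the index set is arbitrary. -/
structure IsUBOS [Fact (1 ≤ p)] {ι : Type*} (M : ℝ) (ψ : ι → Lp ℝ p μ) : Prop where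
  orthogonal : ∀ i j, i ≠ j → Orth μ (ψ i) (ψ j)
  normalized : ∀ j, ‖ψ j‖ = 1
  bounded : ∀ j, BddBy μ M (ψ j)

/-- The norming functional `F_f(g) = ‖f‖^(1-p) ∫ |f|^(p-2) f g`. -/
noncomputable def normingF [Fact (1 ≤ p)] (f g : Lp ℝ p μ) : ℝ :=
  ‖f‖ ^ (1 - p.toReal) * pairing μ p.toReal f g

lemma toReal_ge (hp2 : 2 ≤ p) (hptop : p ≠ ⊤) : 2 ≤ p.toReal := by
  have := ENNReal.toReal_mono hptop hp2
  simpa using this

lemma memLp' (hptop : p ≠ ⊤) (f : Lp ℝ p μ) : MemLp f (ENNReal.ofReal p.toReal) μ := by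
  rw [ENNReal.ofReal_toReal hptop]; exact Lp.memLp f

lemma int_norm [Fact (1 ≤ p)] (hp2 : 2 ≤ p) (hptop : p ≠ ⊤) (f : Lp ℝ p μ) :
    ∫ x, |f x| ^ p.toReal ∂μ = ‖f‖ ^ p.toReal := by
  have hq2 := toReal_ge hp2 hptop
  have hp0 : p ≠ 0 := by
    intro h; rw [h] at hp2; exact absurd hp2 (by norm_num)
  rw [Lp.norm_def, MemLp.eLpNorm_eq_integral_rpow_norm hp0 hptop (Lp.memLp f)]
  rw [ENNReal.toReal_ofReal (by positivity),
    ← Real.rpow_mul (integral_nonneg (fun x => by positivity)), inv_mul_cancel₀ (by linarith),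
    Real.rpow_one]
  simp only [Real.norm_eq_abs]

/-- The constant of smoothness. -/
noncomputable def gam (q : ℝ) : ℝ := 3 * WC.KK q / q

lemma gam_ge {q : ℝ} (hq : 2 ≤ q) : 1 ≤ gam q := by
  unfold gam
  have := WC.KK_ge_sq hq
  rw [le_div_iff₀ (by linarith)]
  nlinarith

lemma smooth_Lp [Fact (1 ≤ p)] (hp2 : 2 ≤ p) (hptop : p ≠ ⊤) :
    SmoothOfPower (Lp ℝ p μ) 2 (gam p.toReal) := by
  intro x y hx
  have hq2 := toReal_ge hp2 hptop
  have hγ := gam_ge hq2
  set q : ℝ := p.toReal with hq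
  have hq0 : 0 < q := by linarith
  have hK := WC.KK_pos hq2
  set u : ℝ := ‖y‖ with hu
  have hu0 : 0 ≤ u := norm_nonneg _
  rw [Real.rpow_two]
  have htri : ‖x + y‖ + ‖x - y‖ ≤ 2 + 2 * u := by
    have h1 := norm_add_le x y
    have h2 := norm_sub_le x y
    rw [hx] at h1 h2
    linarith
  rcases le_or_gt u 1 with hu1 | hu1
  swap
  · have : 2 * u ≤ 2 * gam q * u ^ 2 := by nlinarith
    linarith
  rcases hu0.eq_or_lt with h0 | hupos
  · rw [← h0] at htri ⊢
    simp only [mul_zero, add_zero] at htri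
    simpa using htri
  -- pointwise
  have hpt : ∀ a b : ℝ, |a - b| ^ q + |a + b| ^ q ≤
      2 * |a| ^ q + 2 * WC.KK q * (u ^ 2 * (|a| ^ q + |b| ^ q / u ^ q) + |b| ^ q) := by
    intro a b
    have h1 := WC.pointwise hq2 a b
    have h2 := WC.pointwise hq2 a (-b)
    rw [sub_neg_eq_add, abs_neg] at h2
    have h3 := WC.mul_le_add_rpow hq2 (abs_nonneg a) (by positivity : 0 ≤ |b| / u)
    rw [Real.div_rpow (abs_nonneg _) hu0, div_pow, sq_abs] at h3
    have h4 : |a| ^ (q - 2) * b ^ 2 ≤ u ^ 2 * (|a| ^ q + |b| ^ q / u ^ q) := by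
      have h5 : |a| ^ (q - 2) * b ^ 2 = u ^ 2 * (|a| ^ (q - 2) * (b ^ 2 / u ^ 2)) := by
        field_simp
      rw [h5]
      exact mul_le_mul_of_nonneg_left h3 (by positivity)
    have h5 : (-b) ^ 2 = b ^ 2 := by ring
    rw [h5] at h2
    nlinarith
  have hxm := memLp' hptop x
  have hym := memLp' hptop y
  have hIx := WC.int_rpow hq2 hxm
  have hIy := WC.int_rpow hq2 hym
  have hIs := WC.int_rpow hq2 (memLp' hptop (x + y))
  have hId := WC.int_rpow hq2 (memLp' hptop (x - y))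
  have hmain : ∫ z, (|(x - y : Lp ℝ p μ) z| ^ q + |(x + y : Lp ℝ p μ) z| ^ q) ∂μ ≤
      ∫ z, (2 * |x z| ^ q + 2 * WC.KK q * (u ^ 2 * (|x z| ^ q + |y z| ^ q / u ^ q) +
        |y z| ^ q)) ∂μ := by
    apply integral_mono_ae (hId.add hIs)
    · exact (hIx.const_mul 2).add ((((hIx.add (hIy.div_const _)).const_mul _).add hIy).const_mul _)
    · filter_upwards [Lp.coeFn_add x y, Lp.coeFn_sub x y] with z h1 h2
      show |(x - y : Lp ℝ p μ) z| ^ q + |(x + y : Lp ℝ p μ) z| ^ q ≤ _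
      rw [h1, h2, Pi.add_apply, Pi.sub_apply]
      exact hpt _ _
  have huq : (0:ℝ) < u ^ q := by positivity
  have i1 : Integrable (fun z => 2 * |x z| ^ q) μ := hIx.const_mul 2
  have i2 : Integrable (fun z => |y z| ^ q / u ^ q) μ := hIy.div_const _
  have i3 : Integrable (fun z => |x z| ^ q + |y z| ^ q / u ^ q) μ := hIx.add i2
  have i4 : Integrable (fun z => u ^ 2 * (|x z| ^ q + |y z| ^ q / u ^ q)) μ := i3.const_mul _
  have i5 : Integrable (fun z => u ^ 2 * (|x z| ^ q + |y z| ^ q / u ^ q) + |y z| ^ q) μ :=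
    i4.add hIy
  have i6 : Integrable (fun z => 2 * WC.KK q * (u ^ 2 * (|x z| ^ q + |y z| ^ q / u ^ q) +
    |y z| ^ q)) μ := i5.const_mul _
  rw [integral_add hId hIs, int_norm hp2 hptop, int_norm hp2 hptop, integral_add i1 i6,
    integral_const_mul, integral_const_mul, integral_add i4 hIy, integral_const_mul,
    integral_add hIx i2, integral_div, int_norm hp2 hptop, int_norm hp2 hptop, hx,
    Real.one_rpow, ← hu, div_self huq.ne'] at hmain
  have huq1 : u ^ q ≤ u ^ 2 := by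
    rw [← Real.rpow_two]
    exact Real.rpow_le_rpow_of_exponent_ge hupos hu1 hq2
  have hB : ∀ a : ℝ, 0 ≤ a → 1 + q * (a - 1) ≤ a ^ q := by
    intro a ha
    have := one_add_mul_self_le_rpow_one_add (s := a - 1) (by linarith) (p := q) (by linarith)
    rwa [add_sub_cancel] at this
  have h1 := hB _ (norm_nonneg (x + y))
  have h2 := hB _ (norm_nonneg (x - y))
  have h3 : q * (‖x + y‖ + ‖x - y‖ - 2) ≤ 6 * WC.KK q * u ^ 2 := by nlinarith
  have h4 : 2 * gam q * u ^ 2 = 6 * WC.KK q * u ^ 2 / q := by unfold gam; ring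
  rw [h4]
  have h5 : ‖x + y‖ + ‖x - y‖ - 2 ≤ 6 * WC.KK q * u ^ 2 / q := by
    rw [le_div_iff₀ hq0]; linarith
  linarith

lemma pairing_add (hp2 : 2 ≤ p) (hptop : p ≠ ⊤) [Fact (1 ≤ p)] (f g h : Lp ℝ p μ) :
    pairing μ p.toReal f (g + h : Lp ℝ p μ) = pairing μ p.toReal f g + pairing μ p.toReal f h := by
  have hq2 := toReal_ge hp2 hptop
  unfold pairing
  rw [← WC.J_add hq2 (memLp' hptop f) (memLp' hptop g) (memLp' hptop h)]
  apply integral_congr_ae
  filter_upwards [Lp.coeFn_add g h] with x hx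
  rw [hx, Pi.add_apply]

lemma pairing_smul [Fact (1 ≤ p)] (f g : Lp ℝ p μ) (c : ℝ) :
    pairing μ p.toReal f (c • g : Lp ℝ p μ) = c * pairing μ p.toReal f g := by
  unfold pairing
  rw [← WC.J_smul]
  apply integral_congr_ae
  filter_upwards [Lp.coeFn_smul c g] with x hx
  rw [hx, Pi.smul_apply, smul_eq_mul]

lemma pairing_self (hp2 : 2 ≤ p) (hptop : p ≠ ⊤) [Fact (1 ≤ p)] (f : Lp ℝ p μ) :
    pairing μ p.toReal f f = ‖f‖ ^ p.toReal := by
  have hq2 := toReal_ge hp2 hptop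
  rw [← int_norm hp2 hptop]
  unfold pairing
  congr 1
  funext x
  rcases (abs_nonneg (f x)).eq_or_lt with h0 | h0
  · have : f x = 0 := abs_eq_zero.mp h0.symm
    rw [this, mul_zero, abs_zero, Real.zero_rpow (by linarith)]
  · rw [WC.rpow_split hq2 h0, sq_abs]; ring

lemma pairing_le (hp2 : 2 ≤ p) (hptop : p ≠ ⊤) [Fact (1 ≤ p)] (f g : Lp ℝ p μ) (hf : f ≠ 0) :
    |pairing μ p.toReal f g| ≤ ‖f‖ ^ (p.toReal - 1) * ‖g‖ := by
  have hq2 := toReal_ge hp2 hptop
  set q : ℝ := p.toReal with hq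
  have hq0 : 0 < q := by linarith
  have hq1 : 0 < q - 1 := by linarith
  have hfn : 0 < ‖f‖ := norm_pos_iff.mpr hf
  rcases (norm_nonneg g).eq_or_lt with hg0 | hgn
  · have hg : g = 0 := norm_eq_zero.mp hg0.symm
    have h1 : pairing μ q f g = 0 := by
      have := pairing_smul f g 0
      rw [zero_smul, zero_mul, ← hq] at this
      rw [hg]; exact this
    rw [h1, abs_zero]; positivity
  set v : ℝ := ‖f‖ with hv
  set w : ℝ := ‖g‖ with hw
  have hconj : (q / (q - 1)).HolderConjugate q := by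
    rw [Real.holderConjugate_iff]
    refine ⟨by rw [lt_div_iff₀ hq1]; linarith, ?_⟩
    field_simp; ring
  -- pointwise Young
  have hpt : ∀ x, |(|f x| ^ (q - 2) * f x * g x)| ≤
      v ^ (q - 1) * w * ((|f x| ^ q / v ^ q) / (q / (q - 1)) + (|g x| ^ q / w ^ q) / q) := by
    intro x
    rw [abs_mul, abs_mul, abs_of_nonneg (by positivity : (0:ℝ) ≤ |f x| ^ (q - 2))]
    have hsplit : |f x| ^ (q - 2) * |f x| = |f x| ^ (q - 1) := by
      rcases (abs_nonneg (f x)).eq_or_lt with h0 | h0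
      · rw [← h0, mul_zero, Real.zero_rpow (by linarith)]
      · rw [show q - 1 = q - 2 + 1 by ring, Real.rpow_add h0, Real.rpow_one]
    rw [hsplit]
    have hY := Real.young_inequality_of_nonneg (a := (|f x| / v) ^ (q - 1)) (b := |g x| / w)
      (by positivity) (by positivity) hconj
    rw [← Real.rpow_mul (by positivity), show (q - 1) * (q / (q - 1)) = q by field_simp,
      Real.div_rpow (abs_nonneg _) hfn.le, Real.div_rpow (abs_nonneg _) hfn.le,
      Real.div_rpow (abs_nonneg _) hgn.le] at hY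
    have h1 : |f x| ^ (q - 1) * |g x| =
        v ^ (q - 1) * w * (|f x| ^ (q - 1) / v ^ (q - 1) * (|g x| / w)) := by
      have : (0:ℝ) < v ^ (q - 1) := by positivity
      field_simp
    rw [h1]
    exact mul_le_mul_of_nonneg_left hY (by positivity)
  have hIf := WC.int_rpow hq2 (memLp' hptop f)
  have hIg := WC.int_rpow hq2 (memLp' hptop g)
  have i1 : Integrable (fun x => (|f x| ^ q / v ^ q) / (q / (q - 1))) μ :=
    (hIf.div_const _).div_const _
  have i2 : Integrable (fun x => (|g x| ^ q / w ^ q) / q) μ := (hIg.div_const _).div_const _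
  have hI : Integrable (fun x => v ^ (q - 1) * w * ((|f x| ^ q / v ^ q) / (q / (q - 1)) +
      (|g x| ^ q / w ^ q) / q)) μ := (i1.add i2).const_mul _
  have h1 : |pairing μ q f g| ≤ ∫ x, v ^ (q - 1) * w * ((|f x| ^ q / v ^ q) / (q / (q - 1)) +
      (|g x| ^ q / w ^ q) / q) ∂μ := by
    unfold pairing
    rw [← Real.norm_eq_abs]
    refine (norm_integral_le_integral_norm _).trans ?_
    refine integral_mono_of_nonneg (Filter.Eventually.of_forall (fun x => norm_nonneg _)) hI ?_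
    refine Filter.Eventually.of_forall (fun x => ?_)
    show ‖|f x| ^ (q - 2) * f x * g x‖ ≤ _
    rw [Real.norm_eq_abs]; exact hpt x
  refine h1.trans (le_of_eq ?_)
  have hvq : (0:ℝ) < v ^ q := by positivity
  have hwq : (0:ℝ) < w ^ q := by positivity
  rw [integral_const_mul, integral_add i1 i2, integral_div, integral_div, integral_div, integral_div,
    int_norm hp2 hptop, int_norm hp2 hptop, ← hv, ← hw, div_self hvq.ne', div_self hwq.ne']
  have : 1 / (q / (q - 1)) + 1 / q = 1 := by field_simp; ring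
  rw [this, mul_one]

lemma normingF_isNorming (hp2 : 2 ≤ p) (hptop : p ≠ ⊤) [Fact (1 ≤ p)] :
    IsNorming (normingF : Lp ℝ p μ → Lp ℝ p μ → ℝ) where
  add f g h _ := by
    unfold normingF; rw [pairing_add hp2 hptop]; ring
  smul f g c _ := by
    unfold normingF; rw [pairing_smul]; ring
  le f g hf := by
    have hfn : 0 < ‖f‖ := norm_pos_iff.mpr hf
    unfold normingF
    rw [abs_mul, abs_of_pos (by positivity)]
    calc ‖f‖ ^ (1 - p.toReal) * |pairing μ p.toReal f g|
        ≤ ‖f‖ ^ (1 - p.toReal) * (‖f‖ ^ (p.toReal - 1) * ‖g‖) :=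
          mul_le_mul_of_nonneg_left (pairing_le hp2 hptop f g hf) (by positivity)
      _ = ‖g‖ := by
          rw [← mul_assoc, ← Real.rpow_add hfn, show 1 - p.toReal + (p.toReal - 1) = 0 by ring,
            Real.rpow_zero, one_mul]
  self f hf := by
    have hfn : 0 < ‖f‖ := norm_pos_iff.mpr hf
    unfold normingF
    rw [pairing_self hp2 hptop, ← Real.rpow_add hfn, show 1 - p.toReal + p.toReal = 1 by ring,
      Real.rpow_one]

lemma coeFn_sum [Fact (1 ≤ p)] {ι : Type*} (ψ : ι → Lp ℝ p μ) (Λ : Finset ι) (c : ι → ℝ) :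
    ((∑ j ∈ Λ, c j • ψ j : Lp ℝ p μ) : X → ℝ) =ᵐ[μ] fun x => ∑ j ∈ Λ, c j * ψ j x := by
  classical
  induction Λ using Finset.induction_on with
  | empty =>
    simp only [Finset.sum_empty]
    exact Lp.coeFn_zero ℝ p _
  | insert a Λ' ha ih =>
    simp only [Finset.sum_insert ha]
    filter_upwards [ih, Lp.coeFn_add (c a • ψ a) (∑ j ∈ Λ', c j • ψ j), Lp.coeFn_smul (c a) (ψ a)]
      with x h1 h2 h3
    rw [h2, Pi.add_apply, h1, h3, Pi.smul_apply, smul_eq_mul]

/-- The constant of the lower two-estimate. -/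
noncomputable def lowB (q M A : ℝ) : ℝ := Real.sqrt ((A + 1) * (max M 1) ^ (q - 2))

lemma lowB_pos {q M A : ℝ} (hA : 0 ≤ A) : 0 < lowB q M A := by
  unfold lowB
  have : (0:ℝ) < max M 1 := lt_of_lt_of_le one_pos (le_max_right _ _)
  positivity

lemma lower_Lp [Fact (1 ≤ p)] (hp2 : 2 ≤ p) (hptop : p ≠ ⊤) [IsFiniteMeasure μ] {A M : ℝ}
    (hA : μ.real Set.univ ≤ A) {ι : Type*} {ψ : ι → Lp ℝ p μ} (hψ : IsUBOS M ψ) :
    LowerEstimate ψ 2 (lowB p.toReal M A) := by
  classical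
  intro c
  have hq2 := toReal_ge hp2 hptop
  set q : ℝ := p.toReal with hq
  have hq0 : 0 < q := by linarith
  have hA0 : 0 ≤ A := measureReal_nonneg.trans hA
  set M' : ℝ := max M 1 with hM'
  have hM'1 : 1 ≤ M' := le_max_right _ _
  have hM'p : 0 < M' := by linarith
  have h2 : ∀ j, MemLp (ψ j) 2 μ := fun j => WC.memLp_two hq2 (memLp' hptop (ψ j))
  -- lower bound of the `L_2` norms
  have hb : ∀ j, 1 ≤ M' ^ (q - 2) * ∫ x, ψ j x ^ 2 ∂μ := by
    intro j
    have h1 : ∫ x, |ψ j x| ^ q ∂μ ≤ ∫ x, M' ^ (q - 2) * ψ j x ^ 2 ∂μ := by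
      apply integral_mono_ae (WC.int_rpow hq2 (memLp' hptop (ψ j)))
        ((h2 j).integrable_sq.const_mul _)
      filter_upwards [hψ.bounded j] with x hx
      rcases (abs_nonneg (ψ j x)).eq_or_lt with h0 | h0
      · rw [← h0, Real.zero_rpow hq0.ne']; positivity
      · rw [WC.rpow_split hq2 h0, sq_abs]
        apply mul_le_mul_of_nonneg_right _ (sq_nonneg _)
        exact Real.rpow_le_rpow h0.le (hx.trans (le_max_left _ _)) (by linarith)
    rw [int_norm hp2 hptop, hψ.normalized, Real.one_rpow, integral_const_mul] at h1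
    exact h1
  set f : Lp ℝ p μ := c.sum fun j x => x • ψ j with hf
  have hfx : (f : X → ℝ) =ᵐ[μ] fun x => ∑ j ∈ c.support, c j * ψ j x := by
    rw [hf]; exact coeFn_sum ψ c.support c
  -- Parseval
  have hpars : ∫ x, (f : X → ℝ) x ^ 2 ∂μ = ∑ j ∈ c.support, c j ^ 2 * ∫ x, ψ j x ^ 2 ∂μ := by
    have e0 : ∫ x, (f : X → ℝ) x ^ 2 ∂μ = ∫ x, (∑ j ∈ c.support, c j * ψ j x) ^ 2 ∂μ := by
      apply integral_congr_ae
      filter_upwards [hfx] with x hx
      rw [hx]
    rw [e0]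
    have e : ∀ x, (∑ j ∈ c.support, c j * ψ j x) ^ 2 =
        ∑ g ∈ c.support, ∑ h ∈ c.support, (c g * c h) * (ψ g x * ψ h x) := fun x => by
      simp only [sq, Finset.sum_mul, Finset.mul_sum]
      apply Finset.sum_congr rfl; intro g _
      apply Finset.sum_congr rfl; intro h _
      ring
    simp_rw [e]
    rw [integral_finsetSum]
    · apply Finset.sum_congr rfl
      intro g hg
      rw [integral_finsetSum]
      · rw [Finset.sum_eq_single g]
        · rw [integral_const_mul]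
          congr 1
          · ring
          · congr 1; funext x; ring
        · intro h hh hne
          rw [integral_const_mul, hψ.orthogonal g h (fun e => hne e.symm), mul_zero]
        · intro hng; exact absurd hg hng
      · intro h hh
        exact (WC.int_mul_two (h2 g) (h2 h)).const_mul _
    · intro g hg
      apply integrable_finsetSum
      intro h hh
      exact (WC.int_mul_two (h2 g) (h2 h)).const_mul _
  have hl2 : ∫ x, (f : X → ℝ) x ^ 2 ∂μ ≤ (A + 1) * ‖f‖ ^ 2 := by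
    rcases (norm_nonneg f).eq_or_lt with h0 | h0
    · have hf0 : f = 0 := norm_eq_zero.mp h0.symm
      have : ∫ x, (f : X → ℝ) x ^ 2 ∂μ = 0 := by
        rw [← integral_zero (α := X) (G := ℝ) (μ := μ)]
        apply integral_congr_ae
        have : (f : X → ℝ) =ᵐ[μ] 0 := by rw [hf0]; exact Lp.coeFn_zero ℝ p _
        filter_upwards [this] with x hx
        rw [hx]; simp
      rw [this]; positivity
    · have h1 := WC.l2_le hq2 h0 (memLp' hptop f) (int_norm hp2 hptop f).le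
      refine h1.trans ?_
      apply mul_le_mul_of_nonneg_right _ (by positivity)
      linarith
  have hsum : ∑ j ∈ c.support, |c j| ^ (2:ℝ) ≤ (A + 1) * M' ^ (q - 2) * ‖f‖ ^ 2 := by
    calc ∑ j ∈ c.support, |c j| ^ (2:ℝ) = ∑ j ∈ c.support, c j ^ 2 := by
          apply Finset.sum_congr rfl; intro j _; rw [Real.rpow_two, sq_abs]
      _ ≤ ∑ j ∈ c.support, c j ^ 2 * (M' ^ (q - 2) * ∫ x, ψ j x ^ 2 ∂μ) := by
          apply Finset.sum_le_sum
          intro j _
          nlinarith [hb j, sq_nonneg (c j)]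
      _ = M' ^ (q - 2) * ∑ j ∈ c.support, c j ^ 2 * ∫ x, ψ j x ^ 2 ∂μ := by
          rw [Finset.mul_sum]; apply Finset.sum_congr rfl; intro j _; ring
      _ = M' ^ (q - 2) * ∫ x, (f : X → ℝ) x ^ 2 ∂μ := by rw [hpars]
      _ ≤ M' ^ (q - 2) * ((A + 1) * ‖f‖ ^ 2) := mul_le_mul_of_nonneg_left hl2 (by positivity)
      _ = _ := by ring
  have hS0 : 0 ≤ ∑ j ∈ c.support, |c j| ^ (2:ℝ) :=
    Finset.sum_nonneg (fun j _ => by positivity)
  rw [← Real.sqrt_eq_rpow]
  calc √(∑ j ∈ c.support, |c j| ^ (2:ℝ)) ≤ √((A + 1) * M' ^ (q - 2) * ‖f‖ ^ 2) :=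
        Real.sqrt_le_sqrt hsum
    _ = lowB q M A * ‖f‖ := by
        rw [Real.sqrt_mul (by positivity), Real.sqrt_sq (norm_nonneg _), lowB]

end Pool.Agent.Y285.WG
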